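import Pool.Agent.TH131.PCub.Main

/-!
# The `p`-adic monodromy-weight conjecture and smooth affine cubic hypersurfaces with coefficients
0, 1, -1
-/

set_option autoImplicit false

open CategoryTheory AlgebraicGeometry

namespace Pool.Agent.Results.MP_6451f1_ag.CubicHypersurfaces

open Pool.Agent.TH90.Cub Pool.Agent.TH590.JH Pool.Agent.TH131.Near Pool.Agent.TH131.WCub
  Pool.Agent.TH131.PCub

/-- **The `p`-adic monodromy-weight conjecture and cubic hypersurfaces.** Let `p` be a prime. The
following are equivalent:

* the `p`-adic monodromy-weight conjecture holds for all smooth proper varieties `Y` over all finite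
  extensions of `ℚ_p` (all `H^n_pst(Y)` are pure of weight `n`);
* for all hypersurfaces `C` with an equation `g_0 t_0 + ⋯ + g_r t_r = 1` in the affine space over `ℚ`
  with the coordinates `x_1, …, x_n, t_0, …, t_r`, each `g_i` being of the form `x_a x_b - x_c`,
  `x_a + x_b - x_c` or `x_a - 1`, and all `j` and all `w ≥ 3`, `D_pst` of the graded piece of weight
  `w` of the weight filtration of `H_c^j(C, ℚ_p)` is pure of weight `w`.

If they hold, `D_pst` of the graded pieces of `H_c^j(X, ℚ_p)` is pure in this sense for all separated
schemes `X` of finite type over `ℚ`. The hypersurfaces `C` are smooth over `ℚ`. -/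
theorem result {K : Nat.Primes → Type} [∀ p, Field (K p)] (T : PAdic K) (L : LocalVarieties T)
    (hres : Resolution) (p : Nat.Primes) (hlow : T.LowDegrees p) :
    (L.MonodromyWeight p ↔ T.PureOnCubics p) ∧ (L.MonodromyWeight p → T.PureOnAll p) ∧
    (∀ (n r : ℕ) (g : Fin (r + 1) → MvPolynomial (Fin n) ℚ), Smooth (str ℚ (Cubic g))) :=
  ⟨(main T L hres p hlow).1, (main T L hres p hlow).2, fun _ _ g => cubic_smooth g⟩

end Pool.Agent.Results.MP_6451f1_ag.CubicHypersurfaces
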