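import Pool.Agent.TH177.MW.WeilMain

/-!
# MP_6451f1_ag: the `p`-adic monodromy-weight conjecture and generators of the cohomology ring

Let `X` be a smooth proper variety of dimension `n` over a local field `K` of characteristic `0` with
residue field of `q = p ^ h` elements, and let `H ^ j` be the space `H ^ j_{pst, p}(X)`, with
coefficients extended to an algebraic closure `E` of `P_0`, with the monodromy operator `N` and the
linear action of the Weil group `W_K`. Let `Φ` be an element of `W_K` with `v(Φ) = h`. The cup product
of `p`-adic etale cohomology induces a product on `H ^ *` for which the elements of `W_K` are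
multiplicative and `N` is a derivation, and there is Poincare duality.

Let `Q` be a family of maps `φ : M → H ^ (deg φ)`, equivariant for `Φ` and `N`, from modules `M` which
are mw pure of weight `deg φ`. For example:

* the groups `H ^ 0`, `H ^ 1`, `H ^ 2`, where the conjecture is known for all `X`;
* cycle classes and Chern classes;
* pullbacks, Gysin maps and correspondences from varieties for which the conjecture is known
  (surfaces, abelian varieties, varieties with good reduction, complete intersections).

The classes obtained from the images of these maps by sums, cup products and equivariant maps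
`H ^ i → H ^ j (r)`, `j = i + 2 r`, are called *generated*. The theorem says: for `j + k = 2 n` the
conjecture holds for `H ^ j`, i.e. for all `g ∈ W_K` and all `s` the eigenvalues of `g` on `gr_s H ^ j`
have the expected absolute values, if and only if for `t = j, k` and all `i > 0` every generalized
eigenvector of `Φ` in `H ^ t` of weight `t - i` is the sum of a generated class and an element of
`N ^ i H ^ t`.

In particular the conjecture holds for `X` if all classes are generated, for example if the ring `H ^ *`
is generated by `H ^ 1`, `H ^ 2` and the classes of cycles.

The passage from `Φ` to all elements of `W_K` uses that the monodromy filtration is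
`M_s = ∑ N ^ j (ker N ^ (2 j + s + 1))` (so that it is stable under `W_K`), and that some power of
`g` is the product of a power of `Φ` and of an element of an open subgroup of the inertia group which
acts trivially on the graded pieces.
-/

namespace Pool.Agent.Results.MP_6451f1_ag.GeneratedCohomology

open Pool.Agent.TH177.MW

universe u v

/-- **The conjecture holds for `H ^ j` if and only if `H ^ j` and `H ^ k`, `j + k = 2 n`, are
divisible by the powers of `N` modulo generated classes.** -/
theorem result {E : Type u} [Field E] [CharZero E] [IsAlgClosed E] {Γ : WeilGroup} {p : ℕ}
    (hp : 1 < p) (X : WeilCohomologyRing.{u, v} E Γ p) (Q : PureMaps X.toGroups) {j k : ℕ}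
    (h : j + k = 2 * X.n) : (X.act j).IsPure j ↔ DivisibleAt Q j ∧ DivisibleAt Q k :=
  WeilCohomologyRing.main hp X Q h

/-- If all classes are generated, the conjecture holds for `X` in all degrees. -/
theorem of_generated {E : Type u} [Field E] [CharZero E] [IsAlgClosed E] {Γ : WeilGroup} {p : ℕ}
    (hp : 1 < p) (X : WeilCohomologyRing.{u, v} E Γ p) (Q : PureMaps X.toGroups)
    (hQ : ∀ j x, Generated Q j x) {j k : ℕ} (h : j + k = 2 * X.n) : (X.act j).IsPure j :=
  (result hp X Q h).2 ⟨fun _ _ _ _ x _ => ⟨x, 0, hQ _ x, by rw [map_zero, add_zero]⟩,
    fun _ _ _ _ x _ => ⟨x, 0, hQ _ x, by rw [map_zero, add_zero]⟩⟩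

end Pool.Agent.Results.MP_6451f1_ag.GeneratedCohomology
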