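import Mathlib
import Pool.Agent.TH131.WMF.HKFam

/-!
# The `p`-adic monodromy-weight conjecture at all primes for residue classes in families

Let `𝒳 → 𝔸^r_ℚ ∖ {Δ = 0}` be a smooth projective family. Suppose that for each prime `p` there is
one point `t` of `𝔸^r_ℚ ∖ {Δ = 0}` with coordinates in `ℤ_p` such that the `p`-adic
monodromy-weight conjecture holds for the variety `𝒳_t` over `ℚ_p` (for example `𝒳_t` has good
reduction). Then there is a residue class in `ℤ^r` such that for all `t` in this residue class with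
`Δ(t) ≠ 0` and all primes `p` the `p`-adic monodromy-weight conjecture holds for the variety `𝒳_t`
over `ℚ_p`.

* `F`, `hh`, `𝒮`, `hc`, `hw`: smooth projective varieties of bounded degree over `p`-adic fields.
* `𝒳`, `hk`: the family, and the local constancy of `H^w_pst`.
* `hg`: the condition.
-/

set_option autoImplicit false

namespace Pool.Agent.Results.MP_6451f1_ag.ProgressionsInFamilies

open Pool.Agent.TH131.WMF

/-- If for each prime `p` the `p`-adic monodromy-weight conjecture holds for one member over `ℤ_p`,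
then it holds at all primes for all members in a residue class in `ℤ^r`. -/
theorem result {F : LogDeRham} (hh : F.HodgeTheory) {𝒮 : HKVarieties F} (hc : 𝒮.Comparison)
    (hw : 𝒮.WeilConjectures) (𝒳 : HKFamily 𝒮) (hk : 𝒳.IsLocallyConstant)
    (hg : ∀ (p : ℕ) [Fact p.Prime], ∃ t : Fin 𝒳.r → ℤ_[p], IsPoint 𝒳.Δ t ∧ 𝒳.Holds p t) :
    ∃ (m : ℕ) (a : Fin 𝒳.r → ℤ), 0 < m ∧ ∀ t : Fin 𝒳.r → ℤ, (∀ i, t i ≡ a i [ZMOD m]) →
      IsPoint 𝒳.Δ t → 𝒳.HoldsEverywhere t :=
  𝒳.progression hh hc hw hk hg

end Pool.Agent.Results.MP_6451f1_ag.ProgressionsInFamilies
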